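import Pool.Agent.E8helper8.SR.Dicho

/-!
# Partitions of the positive reals into Borel semirings

A *semiring partition* is a partition of `(0, ∞)` into nonempty Borel sets, each closed under
addition and multiplication.

* A semiring partition with more than one piece has at least as many pieces as some covering of `ℝ`
  by meager sets has members. So its size is `𝔠` under Martin's axiom or CH.
* A family of `ℵ₁` pairwise disjoint nonempty closed sets whose union is a transcendence basis of
  `ℝ` over `ℚ` gives a semiring partition with exactly `ℵ₁` pieces. In the iterated perfect set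
  model there is such a family and `ℵ₁ < 𝔠`.

Proof of the second part: let `K i`, `i < ω₁`, be the closed sets and `∂ t`, for `t` in the basis,
the derivation of `ℝ` with `∂ t t = 1` that vanishes on the other members of the basis. For a
transcendental `x > 0` look at the largest `i` for which some `∂ t x ≠ 0` with `t ∈ K i`, and at the
least such `t ∈ K i`. The pair of this `i` and the sign of this `∂ t x` is the same for `x + y` and
`x y` as for `x` and `y`, if it is the same for both. The classes are `σ`-compact, and the positive
algebraic numbers form one more class.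
-/

set_option autoImplicit false

open Set Cardinal

namespace Pool.Agent.Results.MP_afbdfd_lc.IndependentH8

/-- `B` is a partition of `(0, ∞)` into nonempty Borel sets, each closed under addition and
multiplication. -/
def SemiringPartition {J : Type} (B : J → Set ℝ) : Prop :=
  (∀ j, (B j).Nonempty ∧ MeasurableSet (B j) ∧
    ∀ x ∈ B j, ∀ y ∈ B j, x + y ∈ B j ∧ x * y ∈ B j) ∧
  (∀ i j, i ≠ j → Disjoint (B i) (B j)) ∧ ⋃ j, B j = Ioi 0

/-- **Main result.** (1) A semiring partition of `(0, ∞)` with `κ` pieces has `κ = 1`, or `ℝ` is a
union of at most `κ` meager sets. (2) If `K i`, `i ∈ ι`, are `ℵ₁` pairwise disjoint nonempty closed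
sets whose union is a transcendence basis of `ℝ` over `ℚ`, there is a semiring partition of `(0, ∞)`
with exactly `ℵ₁` pieces. -/
theorem result :
    (∀ (J : Type) (B : J → Set ℝ), SemiringPartition B → #J = 1 ∨
      ∃ F : Set (Set ℝ), #F ≤ #J ∧ (∀ M ∈ F, IsMeagre M) ∧ ⋃₀ F = Set.univ) ∧
    ∀ (ι : Type) (K : ι → Set ℝ), #ι = ℵ₁ → (∀ i, IsClosed (K i) ∧ (K i).Nonempty) →
      (∀ i j, i ≠ j → Disjoint (K i) (K j)) →
      IsTranscendenceBasis ℚ (Subtype.val : (⋃ i, K i : Set ℝ) → ℝ) →
      ∃ (J : Type) (B : J → Set ℝ), #J = ℵ₁ ∧ SemiringPartition B := by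
  refine ⟨fun J B hB => Pool.Agent.E8helper8.SR.one_or_cover hB, ?_⟩
  intro ι K hι hK hdis hT
  exact Pool.Agent.E8helper8.SR.partition hι (fun i => (hK i).1)
    (fun i => (hK i).2) (fun i j hij => hdis i j hij) hT

end Pool.Agent.Results.MP_afbdfd_lc.IndependentH8
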